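import Pool.Agent.T9h5.GG.Spec

/-!
# Divisors of effective divisors
-/

set_option autoImplicit false

namespace Pool.Agent.T9h46.GG

open Finset
open Pool.Agent.T9h5.GG

section dE

variable {Z : Type}

lemma dEg_add (dg : Z → ℕ) (E F : Z →₀ ℕ) : dEg dg (E + F) = dEg dg E + dEg dg F := by
  classical
  unfold dEg
  rw [Finsupp.sum_add_index']
  · intro z; simp
  · intro z a b; ring

lemma dEg_zero (dg : Z → ℕ) : dEg dg (0 : Z →₀ ℕ) = 0 := by
  unfold dEg; simp

open Classical in
lemma mem_dvs {E F : Z →₀ ℕ} : F ∈ dvs E ↔ F ≤ E := by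
  unfold dvs; rw [mem_Iic]

end dE

open Classical in
theorem tau : Tau := by
  intro A Z _ _ S w E hw hE
  have h1 : (dvs E).card ≤ ∏ z ∈ E.support, 2 ^ E z := by
    unfold dvs
    rw [Finsupp.card_Iic]
    refine prod_le_prod' fun z _ => ?_
    rw [Nat.card_Iic]
    exact Nat.lt_two_pow_self
  rw [prod_pow_eq_pow_sum] at h1
  refine h1.trans (Nat.pow_le_pow_right (by norm_num) ?_)
  rw [Nat.le_div_iff_mul_le hw, sum_mul]
  unfold Ar.dE dEg
  rw [Finsupp.sum]
  refine sum_le_sum fun z hz => ?_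
  exact Nat.mul_le_mul_left _ (hE z (Finsupp.mem_support_iff.1 hz))

section divProd

variable {A Z : Type} [CommRing A] [IsDomain A] (S : Ar A Z)

lemma dv_one : S.dv 1 = 0 := by
  have h := S.dv_mul 1 1 one_ne_zero one_ne_zero
  rw [mul_one] at h
  exact (left_eq_add.1 h)

/-- the tuples whose product is divisible by `E` -/
noncomputable def Tp (T : Finset A) (j : ℕ) (E : Z →₀ ℕ) : Finset (Fin j → A) :=
  open Classical in (Fintype.piFinset (fun _ : Fin j => T)).filter (fun x => E ≤ S.dv (∏ i, x i))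

omit [IsDomain A] in
lemma Tp_coe (T : Finset A) (j : ℕ) (E : Z →₀ ℕ) :
    {x : Fin j → A | (∀ i, x i ∈ T) ∧ E ≤ S.dv (∏ i, x i)} = (Tp S T j E : Set (Fin j → A)) := by
  ext x
  simp only [Tp, Set.mem_ofPred_eq, coe_filter, Fintype.mem_piFinset]

open Classical in
lemma Tp_succ (T : Finset A) (hT : 0 ∉ T) (j : ℕ) (E : Z →₀ ℕ) :
    (Tp S T (j + 1) E).card ≤
      ∑ F ∈ dvs E, (T.filter (F ≤ S.dv ·)).card * (Tp S T j (E - F)).card := by
  have h1 : Tp S T (j + 1) E ⊆ (dvs E).biUnion (fun F =>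
      ((T.filter (F ≤ S.dv ·)) ×ˢ (Tp S T j (E - F))).image
        (fun p => (Fin.cons p.1 p.2 : Fin (j + 1) → A))) := by
    intro x hx
    simp only [Tp, mem_filter, Fintype.mem_piFinset] at hx
    obtain ⟨hx1, hx2⟩ := hx
    have hne : ∀ i, x i ≠ 0 := fun i h => hT (h ▸ hx1 i)
    rw [Fin.prod_univ_succ, S.dv_mul _ _ (hne _) (prod_ne_zero_iff.2 fun i _ => hne _)] at hx2
    rw [mem_biUnion]
    refine ⟨E ⊓ S.dv (x 0), mem_dvs.2 inf_le_left, ?_⟩
    rw [mem_image]
    refine ⟨(x 0, fun i => x i.succ), ?_, ?_⟩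
    · rw [mem_product]
      refine ⟨mem_filter.2 ⟨hx1 0, inf_le_right⟩, ?_⟩
      simp only [Tp, mem_filter, Fintype.mem_piFinset]
      refine ⟨fun i => hx1 _, ?_⟩
      intro z
      have h2 := hx2 z
      simp only [Finsupp.coe_tsub, Pi.sub_apply, Finsupp.inf_apply, Finsupp.coe_add,
        Pi.add_apply] at h2 ⊢
      omega
    · funext i
      refine Fin.cases ?_ (fun i => ?_) i
      · rfl
      · rfl
  refine (card_le_card h1).trans (card_biUnion_le.trans (sum_le_sum fun g _ => ?_))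
  exact card_image_le.trans (card_product _ _).le

end divProd

theorem divProd : DivProd := by
  intro A Z _ _ S E T B j hT hB0 hS
  rw [Tp_coe, Set.ncard_coe_finset]
  induction j generalizing E with
  | zero =>
    simp only [pow_zero, mul_one]
    by_cases h1 : E = 0
    · rw [h1]
      have h2 : S.dE (0 : Z →₀ ℕ) = 0 := dEg_zero _
      rw [h2]
      simp only [pow_zero, mul_one]
      have : (Tp S T 0 (0 : Z →₀ ℕ)).card ≤ 1 := by
        rw [card_le_one]
        intro a _ b _
        exact Subsingleton.elim _ _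
      exact_mod_cast this
    · have : Tp S T 0 E = ∅ := by
        rw [eq_empty_iff_forall_notMem]
        intro x hx
        simp only [Tp, mem_filter, univ_eq_empty, prod_empty, dv_one] at hx
        exact h1 (le_antisymm hx.2 (by positivity))
      rw [this]; simp
  | succ j ih =>
    classical
    have key : ∀ F ∈ dvs E, (((T.filter (F ≤ S.dv ·)).card : ℝ) * (Tp S T j (E - F)).card) *
        (S.q : ℝ) ^ S.dE E ≤
          (B * T.card) * (((dvs E).card : ℝ) ^ j * B ^ j * (T.card : ℝ) ^ j) := by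
      intro F hF
      rw [mem_dvs] at hF
      have e1 : F + (E - F) = E := add_tsub_cancel_of_le hF
      have hd : S.dE E = S.dE F + S.dE (E - F) := by
        unfold Ar.dE
        rw [← dEg_add, e1]
      have h1 := ih (E - F) (fun G hG => hS G (hG.trans tsub_le_self))
      have h2 := hS F hF
      have h3 : (((T.filter (F ≤ S.dv ·)).card : ℕ) : ℝ) * (S.q : ℝ) ^ S.dE F
          ≤ B * T.card := by
        have e2 : {x ∈ (T : Set A) | F ≤ S.dv x} =
            ((T.filter (F ≤ S.dv ·) : Finset A) : Set A) := by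
          ext x; simp
        rw [e2, Set.ncard_coe_finset] at h2
        exact h2
      have h4 : (dvs (E - F)).card ≤ (dvs E).card :=
        card_le_card fun p hp => mem_dvs.2 ((mem_dvs.1 hp).trans tsub_le_self)
      have h5 : (((dvs (E - F)).card : ℝ) ^ j * B ^ j * (T.card : ℝ) ^ j) ≤
          ((dvs E).card : ℝ) ^ j * B ^ j * (T.card : ℝ) ^ j := by
        have : ((dvs (E - F)).card : ℝ) ≤ (dvs E).card := by exact_mod_cast h4
        gcongr
      rw [hd, pow_add]
      calc _ = (((T.filter (F ≤ S.dv ·)).card : ℝ) * (S.q : ℝ) ^ S.dE F) *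
            (((Tp S T j (E - F)).card : ℝ) * (S.q : ℝ) ^ S.dE (E - F)) := by ring
        _ ≤ _ := mul_le_mul h3 (h1.trans h5) (by positivity) (by positivity)
    have h1 : ((Tp S T (j + 1) E).card : ℝ) ≤
        ∑ F ∈ dvs E, ((T.filter (F ≤ S.dv ·)).card : ℝ) * (Tp S T j (E - F)).card := by
      exact_mod_cast Tp_succ S T hT j E
    calc ((Tp S T (j + 1) E).card : ℝ) * (S.q : ℝ) ^ S.dE E
        ≤ (∑ F ∈ dvs E, ((T.filter (F ≤ S.dv ·)).card : ℝ) * (Tp S T j (E - F)).card) *
          (S.q : ℝ) ^ S.dE E := by gcongr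
      _ = ∑ F ∈ dvs E, (((T.filter (F ≤ S.dv ·)).card : ℝ) * (Tp S T j (E - F)).card) *
          (S.q : ℝ) ^ S.dE E := by rw [sum_mul]
      _ ≤ ∑ F ∈ dvs E, (B * T.card) * (((dvs E).card : ℝ) ^ j * B ^ j * (T.card : ℝ) ^ j) :=
          sum_le_sum key
      _ = _ := by rw [sum_const, nsmul_eq_mul]; ring

end Pool.Agent.T9h46.GG
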