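import Pool.Agent.T9h5.GG.Spec2
import Pool.Agent.T9h46.GF.TP

/-!
# Typical points from the count theorem, for global function fields
-/

set_option autoImplicit false

namespace Pool.Agent.T9h46.GG

open Finset H39Gon
open Pool.Agent.T9h42.GF (Ix av ce Deg Robust)
open Pool.Agent.T9h46.GF (deg_of_sum deg_multi cl_of_ne cl_one cl_mul cl_inv cl_div cl_neg_one
  Q_tors exists_common_zero)
open Pool.Agent.T9h5.GG

section pc

variable {A : Type} [CommRing A] [IsDomain A] (K : Type) [Field K] [Algebra A K]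
  [IsFractionRing A K]

omit [IsDomain A] in
lemma map_ne {a : A} (ha : a ≠ 0) : algebraMap A K a ≠ 0 :=
  fun h => ha ((map_eq_zero_iff _ (IsFractionRing.injective A K)).1 h)

omit [IsDomain A] [IsFractionRing A K] in
lemma pc_one : pc K (1 : A) = 0 := by rw [pc, map_one, cl_one]

omit [IsDomain A] in
lemma pc_mul {a b : A} (ha : a ≠ 0) (hb : b ≠ 0) : pc K (a * b) = pc K a + pc K b := by
  rw [pc, map_mul, cl_mul (map_ne K ha) (map_ne K hb), pc, pc]

lemma pc_prod {T : Type} (s : Finset T) (f : T → A) (h : ∀ i ∈ s, f i ≠ 0) :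
    pc K (∏ i ∈ s, f i) = ∑ i ∈ s, pc K (f i) := by
  classical
  induction s using Finset.induction_on with
  | empty => simp [pc_one]
  | insert a s ha ih =>
    rw [prod_insert ha, sum_insert ha,
      pc_mul K (h a (mem_insert_self _ _))
        (prod_ne_zero_iff.2 (fun i hi => h i (mem_insert_of_mem hi))),
      ih (fun i hi => h i (mem_insert_of_mem hi))]

omit [IsDomain A] in
/-- the relation for a solution of `α a + β b = c` -/
lemma Q_rel {m : ℕ}
    (Q : MultilinearMap ℤ (fun _ : Fin (m + 1) => UV K) (UV K →ₗ[ℤ] ℚ))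
    (hQ : ∀ f : K, f ≠ 0 → f ≠ 1 → Q (fun _ => cl f) (cl (1 - f)) = 0)
    {α β a b c : A} (hα : α ≠ 0) (hβ : β ≠ 0) (ha : a ≠ 0) (hb : b ≠ 0) (hc : c ≠ 0)
    (h : α * a + β * b = c) :
    Q (fun _ => pc K a + pc K α - pc K b - pc K β) (pc K c - pc K b - pc K β) = 0 := by
  have e1 := map_ne K hα
  have e2 := map_ne K hβ
  have e3 := map_ne K ha
  have e4 := map_ne K hb
  have e5 := map_ne K hc
  have e6 := mul_ne_zero e1 e3
  have e7 := mul_ne_zero e2 e4
  set f : K := (-1) * ((algebraMap A K α * algebraMap A K a) /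
    (algebraMap A K β * algebraMap A K b)) with hf
  have hf1 : 1 - f = algebraMap A K c /
      (algebraMap A K β * algebraMap A K b) := by
    rw [hf, ← h, map_add, map_mul, map_mul]
    field_simp
    ring
  have hf0 : f ≠ 0 := mul_ne_zero (neg_ne_zero.2 one_ne_zero) (div_ne_zero e6 e7)
  have hf2 : f ≠ 1 := by
    intro h1
    rw [h1, sub_self] at hf1
    exact (div_ne_zero e5 e7) hf1.symm
  have h1 := hQ f hf0 hf2
  rw [hf1, hf, cl_mul (neg_ne_zero.2 one_ne_zero) (div_ne_zero e6 e7), cl_div e6 e7,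
    cl_div e5 e7, cl_mul e1 e3, cl_mul e2 e4, Q_tors Q _ _ _ cl_neg_one] at h1
  have h2 : (pc K a + pc K α - pc K b - pc K β : UV K) =
      pc K α + pc K a - (pc K β + pc K b) := by abel
  have h3 : (pc K c - pc K b - pc K β : UV K) = pc K c - (pc K β + pc K b) := by abel
  rw [h2, h3]
  exact h1

end pc

lemma mem_of_mem_fs {T : Type} {s : Set T} {x : T} (h : x ∈ fs s) : x ∈ s := by
  unfold fs at h
  split_ifs at h with hf
  · simpa using h
  · simp at h

section Cop

variable {A Z : Type} [CommRing A] (S : Ar A Z)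

lemma ne_zero_of_mem_Cop {M x : A} {D : ℕ} (h : x ∈ S.Cop M D) : x ≠ 0 :=
  S.mon_ne x (mem_of_mem_fs h).1

lemma Cop_congr {M M' : A} (h : ∀ x, IsCoprime x M ↔ IsCoprime x M') : S.Cop M = S.Cop M' := by
  funext D
  unfold Ar.Cop
  simp only [h]

end Cop

theorem tpOfCount : TPofCount := by
  intro hR hC A Z K _ _ _ _ _ S m
  obtain ⟨δ, hδ, hδ2⟩ := hR (1 + (2 * (m + 2) * (2 * (m + 2) + 2) + 2 * (m + 2))) (m + 2)
    (1 / 2 ^ (m + 3)) (by positivity)
  obtain ⟨w, hw⟩ := hC A Z S (m + 2) δ (by omega) hδ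
  refine ⟨w, fun Q hQ I _ α β A₀ hI h1 h2 h3 => ?_⟩
  rcases isEmpty_or_nonempty I with hE | ⟨⟨i₀⟩⟩
  · exact ⟨1, 1, 1, one_ne_zero, one_ne_zero, one_ne_zero, fun i => isEmptyElim i⟩
  obtain ⟨C, hK⟩ : ∃ C : ℕ → Finset A, C = S.Cop (α i₀ * β i₀) := ⟨_, rfl⟩
  have hKi : ∀ i, C = S.Cop (α i * β i) := by
    intro i
    rw [hK]
    exact Cop_congr S fun x => h3 _ _ x
  obtain ⟨j, hj⟩ : ∃ j : ℕ, ∀ i, S.ht (β i) < S.ht (α i) + 2 * (m + 2) * j := by
    refine ⟨∑ i, S.ht (β i) + 1, fun i => ?_⟩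
    have h4 : S.ht (β i) ≤ ∑ i, S.ht (β i) :=
      single_le_sum (f := fun i => S.ht (β i)) (fun _ _ => Nat.zero_le _) (mem_univ i)
    nlinarith
  choose d₀ hd₀ using fun i => hw (α i) (β i) (h1 i).1 (h1 i).2.1 (h1 i).2.2.1 (h2 i) j (hj i)
  obtain ⟨d, hd⟩ : ∃ d, ∀ i, d₀ i ≤ d :=
    ⟨∑ i, d₀ i, fun i => single_le_sum (f := d₀) (fun _ _ => Nat.zero_le _) (mem_univ i)⟩
  have hfin := fun i => hd₀ i d (hd i) C (hKi i)
  clear hd₀ hd hw
  generalize hN : 2 * (m + 2) * (2 * (m + 2) + 2) = N at *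
  generalize hs : 2 * (m + 2) = s at *
  generalize he : (s + 2) * d - j = e at *
  have hfin' : (∀ i, Nonempty (Pt C N s d e (A₀ + N * d) i)) ∧ ∀ i, ∀ U : Finset (Ix N s),
      U.card ≤ s → av (fun x => |ce U (Wf C (α i) (β i) N s d e (A₀ + N * d)) x - 1|) ≤ δ := by
    constructor
    · have := (hfin i₀).1
      rw [(h1 i₀).2.2.2] at this
      exact this
    · intro i
      have := (hfin i).2
      rw [(h1 i).2.2.2] at this
      exact this
  clear hfin
  obtain ⟨hne, hav⟩ := hfin'
  generalize A₀ + N * d = L at *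
  have := hne
  have hx0 : ∀ (i : Ix N s) (x : Pt C N s d e L i), x.1 ≠ 0 := by
    rintro (_ | _ | _) ⟨x, hx⟩ <;>
    · simp only [Sl, hK] at hx
      exact ne_zero_of_mem_Cop S hx
  -- the functions
  let Fn : I → (∀ i, Pt C N s d e L i) → ℝ := fun i x =>
    ((Q (fun _ => ∑ t, pc K (x (some (Sum.inl t))).1 + pc K (α i) -
        ∑ t, pc K (x (some (Sum.inr t))).1 - pc K (β i))
      (pc K (x none).1 - ∑ t, pc K (x (some (Sum.inr t))).1 - pc K (β i)) : ℚ) : ℝ)
  have key : ∀ i, av (fun x => if Fn i x = 0 then 0 else 1) ≤ 1 / 2 ^ (m + 3) := by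
    intro i
    refine hδ2 (Ix N s) (Pt C N s d e L) ?_ (Wf C (α i) (β i) N s d e L) (Fn i) ?_ ?_ ?_ ?_
    · simp only [Fintype.card_option, Fintype.card_sum, Fintype.card_fin]; omega
    · intro x
      unfold Wf
      split_ifs
      · positivity
      · exact le_rfl
    · intro U hU
      exact hav i U (by omega)
    · -- the degree
      let U : Option (Ix N s) → (∀ i, Pt C N s d e L i) → UV K := fun o x =>
        match o with
        | none => pc K (α i) - pc K (β i)
        | some none => 0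
        | some (some (Sum.inl t)) => pc K (x (some (Sum.inl t))).1
        | some (some (Sum.inr t)) => - pc K (x (some (Sum.inr t))).1
      let W : Option (Ix N s) → (∀ i, Pt C N s d e L i) → UV K := fun o x =>
        match o with
        | none => - pc K (β i)
        | some none => pc K (x none).1
        | some (some (Sum.inl t)) => 0
        | some (some (Sum.inr t)) => - pc K (x (some (Sum.inr t))).1
      have h4 := deg_multi Q U W
        (by
          rintro (_ | _ | t | t) x y h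
          · rfl
          · rfl
          · simp only [U]; rw [h _ rfl]
          · simp only [U]; rw [h _ rfl])
        (by
          rintro (_ | _ | t | t) x y h
          · rfl
          · simp only [W]; rw [h _ rfl]
          · rfl
          · simp only [W]; rw [h _ rfl])
      have h7 : Fn i = fun x => ((Q (fun _ => ∑ o, U o x) (∑ o, W o x) : ℚ) : ℝ) := ?_
      · rw [h7]; exact h4
      funext x
      simp only [Fn]
      have h5 : ∑ o, U o x = ∑ t, pc K (x (some (Sum.inl t))).1 + pc K (α i) -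
          ∑ t, pc K (x (some (Sum.inr t))).1 - pc K (β i) := by
        rw [Fintype.sum_option, Fintype.sum_option, Fintype.sum_sum_type]
        simp only [U, sum_neg_distrib]
        abel
      have h6 : ∑ o, W o x = pc K (x none).1 - ∑ t, pc K (x (some (Sum.inr t))).1 -
          pc K (β i) := by
        rw [Fintype.sum_option, Fintype.sum_option, Fintype.sum_sum_type]
        simp only [W, sum_neg_distrib, sum_const_zero]
        abel
      rw [h5, h6]
    · -- vanishing on the support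
      intro x hx
      have h4 : α i * ∏ t, (x (some (Sum.inl t))).1 + β i * ∏ t, (x (some (Sum.inr t))).1 =
          (x none).1 := by
        by_contra h
        exact hx (if_neg h)
      have h5 := Q_rel K Q hQ (S.mon_ne _ (h1 i).1) (S.mon_ne _ (h1 i).2.1)
        (prod_ne_zero_iff.2 fun t _ => hx0 _ _) (prod_ne_zero_iff.2 fun t _ => hx0 _ _)
        (hx0 _ _) h4
      rw [pc_prod K _ _ fun t _ => hx0 _ _, pc_prod K _ _ fun t _ => hx0 _ _] at h5
      simp only [Fn]
      rw [h5, Rat.cast_zero]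
  obtain ⟨x, hx⟩ := exists_common_zero hI Fn key
  refine ⟨∏ t, (x (some (Sum.inl t))).1, ∏ t, (x (some (Sum.inr t))).1, (x none).1,
    prod_ne_zero_iff.2 fun t _ => hx0 _ _, prod_ne_zero_iff.2 fun t _ => hx0 _ _, hx0 _ _,
    fun i => ?_⟩
  rw [pc_prod K _ _ fun t _ => hx0 _ _, pc_prod K _ _ fun t _ => hx0 _ _]
  have h4 := hx i
  simp only [Fn] at h4
  exact_mod_cast h4

end Pool.Agent.T9h46.GG
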